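import Mathlib
import Pool.Agent.R945.JD.Final

set_option autoImplicit false

namespace Pool.Agent.Results.MP_b23923_nt.Full

open Finset Matrix Pool.Agent.R945.JD

/-- `T(d,p)`: rows and columns `0 ≤ j, k ≤ (p-1)/2` -/
def T (p : ℕ) [Fact p.Prime] (d : ℤ) : ℤ :=
  (Matrix.of fun j k : Fin ((p - 1) / 2 + 1) => legendreSym p ((j : ℤ) ^ 2 + d * (k : ℤ) ^ 2)).det

/-- `D(d,p)`: rows and columns `2 ≤ j, k ≤ (p-1)/2` -/
def D (p : ℕ) [Fact p.Prime] (d : ℤ) : ℤ :=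
  (Matrix.of fun j k : Fin ((p - 3) / 2) => legendreSym p (((j : ℤ) + 2) ^ 2 + d * ((k : ℤ) + 2) ^ 2)).det

/-- `B(d,p)` -/
def B (p : ℕ) [Fact p.Prime] (d : ℤ) : ℤ :=
  ∑ x ∈ Icc 1 ((p - 1) / 2), legendreSym p ((x : ℤ) * ((x : ℤ) ^ 2 + d))

theorem result (p : ℕ) [Fact p.Prime] (hp : p % 4 = 1) :
    ∃ t : ℕ, 0 < t ∧ legendreSym p t = 1 ∧ ∀ d : ℤ, legendreSym p d = -1 →
      (D p d : ℚ) = (2 : ℚ) ^ (((p : ℤ) - 7) / 2) * (t : ℚ) ^ 2 * (B p d : ℚ) ∧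
      (T p d : ℚ) = (2 : ℚ) ^ (((p : ℤ) - 3) / 2) * ((((p : ℚ) - 1) / 4) * t) ^ 2 * (B p d : ℚ) := by
  have hp2 := (Fact.out : p.Prime).two_le
  obtain ⟨r, hr⟩ : ∃ r, p = 4 * r + 1 := ⟨p / 4, by omega⟩
  have hr0 : 0 < r := by omega
  obtain ⟨m, hm⟩ : ∃ m, m + 1 = 2 * r := ⟨2 * r - 1, by omega⟩
  obtain ⟨t, ht1, ht⟩ := main p r hr m hm
  refine ⟨t, ?_, ht1, ?_⟩
  · rcases Nat.eq_zero_or_pos t with h | h
    · rw [h] at ht1; simp at ht1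
    · exact h
  · intro d hd
    obtain ⟨h1, h2⟩ := ht d hd
    have e1 : (p - 1) / 2 + 1 = m + 2 := by omega
    have e2 : (p - 3) / 2 = m := by omega
    have e3 : (p - 1) / 2 = m + 1 := by omega
    have e4 : ((p : ℤ) - 7) / 2 = (m : ℤ) - 2 := by omega
    have e5 : ((p : ℤ) - 3) / 2 = (m : ℤ) := by omega
    have hT : T p d = 2 ^ m * ((r : ℤ) * t) ^ 2 * B p d := by
      unfold T B
      rw [e1, e3]
      exact h1
    have hD : 4 * D p d = 2 ^ m * (t : ℤ) ^ 2 * B p d := by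
      unfold D B
      rw [e2, e3]
      exact h2
    have hTq : (T p d : ℚ) = 2 ^ m * ((r : ℚ) * t) ^ 2 * (B p d : ℚ) := by rw [hT]; push_cast; rfl
    have hDq : 4 * (D p d : ℚ) = 2 ^ m * (t : ℚ) ^ 2 * (B p d : ℚ) := by exact_mod_cast hD
    have hpr : ((p : ℚ) - 1) / 4 = r := by rw [hr]; push_cast; ring
    constructor
    · rw [e4, zpow_sub₀ (by norm_num : (2 : ℚ) ≠ 0), zpow_natCast]
      have h22 : (2 : ℚ) ^ (2 : ℤ) = 4 := by norm_num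
      rw [h22]
      linear_combination (1 / 4 : ℚ) * hDq
    · rw [e5, zpow_natCast, hpr, hTq]

end Pool.Agent.Results.MP_b23923_nt.Full
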