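import Mathlib
import Pool.Agent.R442.Root

/-!
# Sun's conjecture on the determinants of the symbols of `j ^ 2 + d k ^ 2`, `d` a non-residue
-/

set_option autoImplicit false

namespace Pool.Agent.Results.MP_b23923_nt.NonresidueDeterminant

open Finset Pool.Agent.R442.Gen

/-- `D(d,p)`: the determinant of the Legendre symbols of `j ^ 2 + d k ^ 2` modulo `p`,
where `j` and `k` run over `2, ..., (p - 1) / 2` (so the order is `(p - 3) / 2`). -/
def D (d : ℤ) (p : ℕ) [Fact p.Prime] : ℤ :=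
  (Matrix.of fun j k : Fin ((p - 3) / 2) =>
    legendreSym p (((j : ℕ) + 2 : ℤ) ^ 2 + d * ((k : ℕ) + 2 : ℤ) ^ 2)).det

/-- `T(d,p)`: the determinant of the Legendre symbols of `j ^ 2 + d k ^ 2` modulo `p`,
where `j` and `k` run over `0, ..., (p - 1) / 2` (so the order is `(p + 1) / 2`). -/
def T (d : ℤ) (p : ℕ) [Fact p.Prime] : ℤ :=
  (Matrix.of fun j k : Fin ((p + 1) / 2) =>
    legendreSym p (((j : ℕ) : ℤ) ^ 2 + d * ((k : ℕ) : ℤ) ^ 2)).det

/-- `B(d,p)`: the sum of the Legendre symbols of `x (x ^ 2 + d)`, `1 ≤ x ≤ (p - 1) / 2`. -/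
def B (d : ℤ) (p : ℕ) [Fact p.Prime] : ℤ :=
  ∑ x ∈ Icc 1 ((p - 1) / 2), legendreSym p ((x : ℤ) * ((x : ℤ) ^ 2 + d))

theorem det_congr (m n : ℕ) (h : m = n) (F : ℕ → ℕ → ℤ) :
    (Matrix.of fun j k : Fin m => F j k).det = (Matrix.of fun j k : Fin n => F j k).det := by
  subst h
  rfl

theorem D_eq (d : ℤ) (p s : ℕ) [Fact p.Prime] (hps : p = 4 * (s + 1) + 1) :
    D d p = ((N p s d).submatrix Fin.succ Fin.succ).det := by
  unfold D
  rw [det_congr ((p - 3) / 2) (2 * s + 1) (by omega) (fun j k =>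
    legendreSym p (((j : ℕ) + 2 : ℤ) ^ 2 + d * ((k : ℕ) + 2 : ℤ) ^ 2))]
  congr 1

theorem B_eq' (d : ℤ) (p s : ℕ) [Fact p.Prime] (hps : p = 4 * (s + 1) + 1) :
    B d p = Pool.Agent.R442.Gen.B p s d := by
  unfold B Pool.Agent.R442.Gen.B
  have h : (p - 1) / 2 = 2 * s + 2 := by omega
  rw [h, Fin.sum_univ_eq_sum_range (fun j => legendreSym p (((j + 1 : ℕ) : ℤ) *
    (((j + 1 : ℕ) : ℤ) ^ 2 + d))) (2 * s + 2), range_eq_Ico]
  rw [Finset.sum_Ico_add' (fun j : ℕ => legendreSym p ((j : ℤ) * ((j : ℤ) ^ 2 + d))) 0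
    (2 * s + 2) 1]
  rfl

theorem T_eq (d : ℤ) (p s : ℕ) [Fact p.Prime] (hps : p = 4 * (s + 1) + 1)
    (hd : legendreSym p d = -1) :
    T d p = (Matrix.fromBlocks (0 : Matrix Unit Unit ℤ) (Matrix.of fun _ _ => -1)
      (Matrix.of fun _ _ => 1) (N p s d)).det := by
  unfold T
  rw [det_congr ((p + 1) / 2) (2 * s + 2 + 1) (by omega) (fun j k =>
    legendreSym p (((j : ℕ) : ℤ) ^ 2 + d * ((k : ℕ) : ℤ) ^ 2))]
  rw [← Matrix.det_submatrix_equiv_self (Pool.Agent.R442.Border.e1 (2 * s + 2))]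
  congr 1
  have hne : ∀ j : Fin (2 * s + 2), ((((j : ℕ) + 1 : ℕ) : ℤ) : ZMod p) ≠ 0 := by
    intro j h
    rw [Int.cast_natCast, ZMod.natCast_eq_zero_iff] at h
    have := Nat.le_of_dvd (by omega) h
    have := j.2
    omega
  ext i j
  rcases i with i | i <;> rcases j with j | j
  · simp only [Matrix.submatrix_apply, Pool.Agent.R442.Border.e1_inl, Matrix.of_apply,
      Matrix.fromBlocks_apply₁₁, Matrix.zero_apply, Fin.val_zero]
    norm_num
  · simp only [Matrix.submatrix_apply, Pool.Agent.R442.Border.e1_inl,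
      Pool.Agent.R442.Border.e1_inr, Matrix.of_apply, Matrix.fromBlocks_apply₁₂, Fin.val_zero,
      Fin.val_succ]
    rw [Nat.cast_zero, zero_pow (by norm_num), zero_add, legendreSym.mul,
      legendreSym.sq_one' p (hne j), hd, mul_one]
  · simp only [Matrix.submatrix_apply, Pool.Agent.R442.Border.e1_inl,
      Pool.Agent.R442.Border.e1_inr, Matrix.of_apply, Matrix.fromBlocks_apply₂₁, Fin.val_zero,
      Fin.val_succ]
    rw [Nat.cast_zero, zero_pow (by norm_num), mul_zero, add_zero,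
      legendreSym.sq_one' p (hne i)]
  · simp only [Matrix.submatrix_apply, Pool.Agent.R442.Border.e1_inr, Matrix.of_apply,
      Matrix.fromBlocks_apply₂₂, Fin.val_succ, N]

/-- For every prime `p ≡ 1 (mod 4)` there is a positive integer `t` which is a quadratic residue
modulo `p` such that `D(d,p) = 2 ^ ((p - 7) / 2) t ^ 2 B(d,p)` and
`T(d,p) = 2 ^ ((p - 3) / 2) ((p - 1) / 4 t) ^ 2 B(d,p)` for every quadratic non-residue `d`. -/
theorem result (p : ℕ) [Fact p.Prime] (hp : p % 4 = 1) :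
    ∃ t : ℕ, 0 < t ∧ legendreSym p (t : ℤ) = 1 ∧ ∀ d : ℤ, legendreSym p d = -1 →
      (D d p : ℚ) = 2 ^ (((p : ℤ) - 7) / 2) * (t : ℚ) ^ 2 * (B d p : ℚ) ∧
      (T d p : ℚ) = 2 ^ (((p : ℤ) - 3) / 2) * (((p : ℚ) - 1) / 4 * (t : ℚ)) ^ 2 * (B d p : ℚ) := by
  have hpp : p.Prime := Fact.out
  obtain ⟨s, hps⟩ : ∃ s, p = 4 * (s + 1) + 1 := by
    have := hpp.two_le
    exact ⟨(p - 5) / 4, by omega⟩
  obtain ⟨γ, hγ⟩ := IsCyclic.exists_ofOrder_eq_natCard (α := (ZMod p)ˣ)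
  have hg : orderOf (γ : ZMod p) = 4 * (s + 1) := by
    rw [orderOf_units, hγ, Nat.card_eq_fintype_card, ZMod.card_units]
    omega
  obtain ⟨u, hu⟩ := E_sq hps (γ : ZMod p) hg
  have hleg := leg_u hps (γ : ZMod p) hg u hu
  have hu0 : u ≠ 0 := by
    intro h
    rw [h, legendreSym.at_zero] at hleg
    norm_num at hleg
  refine ⟨u.natAbs, Int.natAbs_pos.2 hu0, ?_, ?_⟩
  · rcases Int.natAbs_eq u with h | h
    · rw [← h, hleg]
    · have h2 : ((u.natAbs : ℕ) : ℤ) = -1 * u := by omega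
      have h3 : legendreSym p (-1) = 1 := by
        have := q_neg_one hps (γ : ZMod p) hg
        unfold legendreSym
        push_cast
        exact this
      rw [h2, legendreSym.mul, h3, hleg, one_mul]
  · intro d hd
    have h1 := two_D hps (γ : ZMod p) hg d hd
    rw [hu, ← D_eq d p s hps, ← B_eq' d p s hps] at h1
    have hT := det_bordered hps (γ : ZMod p) hg d hd
    rw [← T_eq d p s hps hd, ← D_eq d p s hps] at hT
    have hu2 : ((u.natAbs : ℕ) : ℚ) ^ 2 = (u : ℚ) ^ 2 := by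
      rw [Nat.cast_natAbs]
      push_cast
      exact sq_abs _
    have e1 : ((p : ℤ) - 7) / 2 = 2 * (s : ℤ) - 1 := by omega
    have e2 : ((p : ℤ) - 3) / 2 = 2 * (s : ℤ) + 1 := by omega
    have h1' : 2 * (D d p : ℚ) = B d p * (2 ^ (2 * s) * (u : ℚ) ^ 2) := by exact_mod_cast h1
    have hD : (D d p : ℚ) = 2 ^ (2 * (s : ℤ) - 1) * (u : ℚ) ^ 2 * (B d p : ℚ) := by
      have e3 : (2 : ℚ) ^ (2 * (s : ℤ) - 1) = 2 ^ (2 * s) / 2 := by
        rw [zpow_sub₀ (by norm_num), zpow_one]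
        congr 1
      rw [e3]
      linear_combination h1' / 2
    rw [hu2, e1, e2]
    refine ⟨hD, ?_⟩
    have hT' : (T d p : ℚ) = (2 * s + 2) ^ 2 * D d p := by exact_mod_cast hT
    have e4 : (2 : ℚ) ^ (2 * (s : ℤ) + 1) = 2 ^ (2 * (s : ℤ) - 1) * 4 := by
      rw [show 2 * (s : ℤ) + 1 = (2 * (s : ℤ) - 1) + 2 by ring, zpow_add₀ (by norm_num)]
      norm_num
    have e5 : (p : ℚ) = 4 * (s + 1) + 1 := by exact_mod_cast hps
    rw [hT', hD, e4, e5]
    have hu3 : ((((4 : ℚ) * (s + 1) + 1) - 1) / 4 * ((u.natAbs : ℕ) : ℚ)) ^ 2 =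
        (s + 1) ^ 2 * (u : ℚ) ^ 2 := by
      rw [mul_pow, hu2]
      ring
    rw [hu3]
    ring

end Pool.Agent.Results.MP_b23923_nt.NonresidueDeterminant
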